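import Mathlib

/-!
# The two-sided period doubling system

A point is a pair `(z, x)` with `z` a dyadic integer and `x` a two-sided 0-1 sequence such that
`x j` is the parity of the 2-adic valuation of `z + j` whenever `z + j ≠ 0`.
-/

set_option autoImplicit false

open Filter Topology

namespace Pool.Agent.H98R3.PD

/-- exact divisibility -/
def Ex (n : ℕ) (w : ℤ_[2]) : Prop := (2 : ℤ_[2]) ^ n ∣ w ∧ ¬ (2 : ℤ_[2]) ^ (n + 1) ∣ w

theorem dvd_iff_norm (n : ℕ) (w : ℤ_[2]) :
    (2 : ℤ_[2]) ^ n ∣ w ↔ ‖w‖ ≤ (2 : ℝ) ^ (-(n : ℤ)) := by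
  have h := PadicInt.norm_le_pow_iff_mem_span_pow w n
  rw [Ideal.mem_span_singleton] at h
  have h2 : ((2 : ℕ) : ℤ_[2]) = 2 := by norm_num
  have h3 : ((2 : ℕ) : ℝ) = 2 := by norm_num
  rw [h2, h3] at h
  exact h.symm

theorem isClopen_dvd (n : ℕ) : IsClopen {w : ℤ_[2] | (2 : ℤ_[2]) ^ n ∣ w} := by
  have h : {w : ℤ_[2] | (2 : ℤ_[2]) ^ n ∣ w} =
      Metric.closedBall 0 ((2 : ℝ) ^ (-(n : ℤ))) := by
    ext w
    simp only [Set.mem_ofPred_eq, mem_closedBall_zero_iff]
    exact dvd_iff_norm n w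
  rw [h]
  exact IsUltrametricDist.isClopen_closedBall _ (by positivity)

theorem isClopen_ex (n : ℕ) : IsClopen {w : ℤ_[2] | Ex n w} := by
  have : {w : ℤ_[2] | Ex n w} = {w : ℤ_[2] | (2 : ℤ_[2]) ^ n ∣ w} ∩
      {w : ℤ_[2] | (2 : ℤ_[2]) ^ (n + 1) ∣ w}ᶜ := rfl
  rw [this]
  exact (isClopen_dvd n).inter (isClopen_dvd (n + 1)).compl

theorem eq_zero_of_dvd {w : ℤ_[2]} (h : ∀ n, (2 : ℤ_[2]) ^ n ∣ w) : w = 0 := by
  by_contra hne
  have hpos : 0 < ‖w‖ := norm_pos_iff.mpr hne
  obtain ⟨k, hk⟩ := PadicInt.exists_pow_neg_lt 2 hpos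
  have := (dvd_iff_norm k w).mp (h k)
  have h3 : ((2 : ℕ) : ℝ) = 2 := by norm_num
  rw [h3] at hk
  linarith

theorem exists_ex {w : ℤ_[2]} (h : w ≠ 0) : ∃ n, Ex n w := by
  classical
  have hex : ∃ n, ¬ (2 : ℤ_[2]) ^ n ∣ w := by
    by_contra hall
    push Not at hall
    exact h (eq_zero_of_dvd hall)
  have hne : Nat.find hex ≠ 0 := by
    intro h0
    have := Nat.find_spec hex
    rw [h0] at this
    apply this
    simp
  obtain ⟨n, hn⟩ := Nat.exists_eq_succ_of_ne_zero hne
  refine ⟨n, ?_, ?_⟩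
  · have := Nat.find_min hex (m := n) (by omega)
    push Not at this
    exact this
  · have := Nat.find_spec hex
    rw [hn] at this
    exact this

theorem ex_unique {w : ℤ_[2]} {m n : ℕ} (hm : Ex m w) (hn : Ex n w) : m = n := by
  rcases lt_trichotomy m n with h | h | h
  · exact absurd ((pow_dvd_pow 2 (by omega)).trans hn.1) hm.2
  · exact h
  · exact absurd ((pow_dvd_pow 2 (by omega)).trans hm.1) hn.2

theorem ex_ne_zero {w : ℤ_[2]} {n : ℕ} (h : Ex n w) : w ≠ 0 := by
  rintro rfl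
  exact h.2 (dvd_zero _)

theorem ex_add {w d : ℤ_[2]} {n : ℕ} (h : Ex n w) (hd : (2 : ℤ_[2]) ^ (n + 1) ∣ d) :
    Ex n (w + d) := by
  refine ⟨dvd_add h.1 ((pow_dvd_pow 2 (Nat.le_succ n)).trans hd), ?_⟩
  intro h2
  apply h.2
  have := dvd_sub h2 hd
  rwa [add_sub_cancel_right] at this

/-- The defining condition. -/
def Cond (p : ℤ_[2] × (ℤ → Bool)) : Prop :=
  ∀ (j : ℤ) (n : ℕ), Ex n (p.1 + (j : ℤ_[2])) → p.2 j = decide (n % 2 = 1)

/-- The system. -/
def XP : Type := {p : ℤ_[2] × (ℤ → Bool) // Cond p}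

instance : TopologicalSpace XP := inferInstanceAs (TopologicalSpace (Subtype _))

theorem isEmbedding_val : Topology.IsEmbedding (fun x : XP => x.1) :=
  Topology.IsEmbedding.subtypeVal

theorem continuous_val : Continuous (fun x : XP => x.1) := continuous_subtype_val

instance : TopologicalSpace.MetrizableSpace XP := isEmbedding_val.metrizableSpace

theorem isClosed_cond : IsClosed {p : ℤ_[2] × (ℤ → Bool) | Cond p} := by
  have h : {p : ℤ_[2] × (ℤ → Bool) | Cond p} = ⋂ j : ℤ, ⋂ n : ℕ,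
      ((fun p : ℤ_[2] × (ℤ → Bool) => p.1 + (j : ℤ_[2])) ⁻¹' {w | Ex n w})ᶜ ∪
      ((fun p : ℤ_[2] × (ℤ → Bool) => p.2 j) ⁻¹' {decide (n % 2 = 1)}) := by
    ext p
    simp only [Cond, Set.mem_ofPred_eq, Set.mem_iInter, Set.mem_union, Set.mem_compl_iff,
      Set.mem_preimage, Set.mem_singleton_iff]
    constructor
    · intro h j n
      by_cases he : Ex n (p.1 + (j : ℤ_[2]))
      · right; exact h j n he
      · left; exact he
    · intro h j n he
      rcases h j n with h1 | h1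
      · exact absurd he h1
      · exact h1
  rw [h]
  apply isClosed_iInter
  intro j
  apply isClosed_iInter
  intro n
  apply IsClosed.union
  · exact (((isClopen_ex n).preimage (by fun_prop)).compl).isClosed
  · exact (isClosed_discrete _).preimage (by fun_prop)

instance : CompactSpace XP := isCompact_iff_compactSpace.mp (isClosed_cond).isCompact

instance : TotallyDisconnectedSpace XP := by
  exact inferInstanceAs (TotallyDisconnectedSpace (Subtype _))

/-- Shift of a pair by `a`. -/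
noncomputable def sh (a : ℤ) (x : XP) : XP :=
  ⟨(x.1.1 + (a : ℤ_[2]), fun j => x.1.2 (j + a)), by
    intro j n h
    apply x.2 (j + a) n
    have : x.1.1 + ((j + a : ℤ) : ℤ_[2]) = x.1.1 + (a : ℤ_[2]) + (j : ℤ_[2]) := by
      push_cast; ring
    rw [this]
    exact h⟩

theorem sh_sh (a b : ℤ) (x : XP) : sh a (sh b x) = sh (a + b) x := by
  apply Subtype.ext
  apply Prod.ext
  · change x.1.1 + (b : ℤ_[2]) + (a : ℤ_[2]) = x.1.1 + ((a + b : ℤ) : ℤ_[2])
    push_cast; ring
  · funext j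
    change x.1.2 (j + a + b) = x.1.2 (j + (a + b))
    rw [add_assoc]

theorem sh_zero (x : XP) : sh 0 x = x := by
  apply Subtype.ext
  apply Prod.ext
  · change x.1.1 + ((0 : ℤ) : ℤ_[2]) = x.1.1
    simp
  · funext j
    change x.1.2 (j + 0) = x.1.2 j
    rw [add_zero]

theorem continuous_sh (a : ℤ) : Continuous (sh a) := by
  apply Continuous.subtype_mk
  have h1 : Continuous (fun x : XP => x.1.1) := continuous_fst.comp continuous_val
  have h2 : Continuous (fun x : XP => x.1.2) := continuous_snd.comp continuous_val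
  refine Continuous.prodMk (h1.add continuous_const) ?_
  apply continuous_pi
  intro j
  exact (continuous_apply (j + a)).comp h2

/-- The homeomorphism `T`. -/
noncomputable def TT : XP ≃ₜ XP where
  toFun := sh 1
  invFun := sh (-1)
  left_inv := fun x => by rw [sh_sh]; exact sh_zero x
  right_inv := fun x => by rw [sh_sh]; exact sh_zero x
  continuous_toFun := continuous_sh 1
  continuous_invFun := continuous_sh (-1)

theorem TT_apply (x : XP) : TT x = sh 1 x := rfl

theorem iterate_TT (n : ℕ) (x : XP) : (⇑TT)^[n] x = sh (n : ℤ) x := by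
  induction n with
  | zero => simp [sh_zero]
  | succ n ih =>
    rw [Function.iterate_succ_apply', ih, TT_apply, sh_sh]
    congr 1
    push_cast
    ring

theorem tendsto_XP {ι : Type*} {l : Filter ι} (f : ι → XP) (y : XP)
    (h1 : Tendsto (fun i => (f i).1.1) l (𝓝 y.1.1))
    (h2 : ∀ j : ℤ, ∀ᶠ i in l, (f i).1.2 j = y.1.2 j) : Tendsto f l (𝓝 y) := by
  rw [isEmbedding_val.tendsto_nhds_iff]
  have h3 : Tendsto (fun i => (f i).1.2) l (𝓝 y.1.2) := by
    rw [tendsto_pi_nhds]
    intro j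
    exact tendsto_nhds_of_eventually_eq (h2 j)
  exact h1.prodMk_nhds h3

/-- Approximation of any point by the forward orbit of any point. -/
theorem exists_approx (x y : XP) : ∃ n : ℕ → ℕ,
    Tendsto (fun N => (⇑TT)^[n N] x) atTop (𝓝 y) ∧ ∀ N, x.1.1 + ((n N : ℕ) : ℤ_[2]) ≠ y.1.1 := by
  obtain ⟨b, hb⟩ : ∃ b : ℕ, ∀ j : ℤ, y.1.1 + (j : ℤ_[2]) = 0 → y.1.2 j = decide (b % 2 = 1) := by
    by_cases h : ∃ j : ℤ, y.1.1 + (j : ℤ_[2]) = 0 ∧ y.1.2 j = true
    · obtain ⟨j, hj, hj2⟩ := h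
      refine ⟨1, ?_⟩
      intro i hi
      have : (i : ℤ_[2]) = (j : ℤ_[2]) := by
        linear_combination hi - hj
      have hij : i = j := by exact_mod_cast this
      rw [hij, hj2]
      rfl
    · push Not at h
      refine ⟨0, ?_⟩
      intro i hi
      have := h i hi
      simpa using this
  have key : ∀ N : ℕ, ∃ n : ℕ, Ex (2 * N + b) (x.1.1 + (n : ℤ_[2]) - y.1.1) := by
    intro N
    have h := PadicInt.appr_spec (2 * N + b + 1)
      (y.1.1 + 2 ^ (2 * N + b) - x.1.1)
    rw [Ideal.mem_span_singleton] at h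
    set n := (y.1.1 + 2 ^ (2 * N + b) - x.1.1).appr (2 * N + b + 1) with hn
    refine ⟨n, ?_⟩
    have h2 : ((2 : ℕ) : ℤ_[2]) = 2 := by norm_num
    rw [h2] at h
    have hE : Ex (2 * N + b) ((2 : ℤ_[2]) ^ (2 * N + b)) := by
      refine ⟨dvd_rfl, ?_⟩
      intro hd
      rw [dvd_iff_norm] at hd
      have h5 : ‖(2 : ℤ_[2]) ^ (2 * N + b)‖ = (2 : ℝ) ^ (-((2 * N + b : ℕ) : ℤ)) := by
        have := PadicInt.norm_p_pow (p := 2) (2 * N + b)
        rw [h2] at this
        exact_mod_cast this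
      rw [h5] at hd
      have : (2 : ℝ) ^ (-((2 * N + b + 1 : ℕ) : ℤ)) < (2 : ℝ) ^ (-((2 * N + b : ℕ) : ℤ)) := by
        apply zpow_lt_zpow_right₀ (by norm_num)
        push_cast
        omega
      linarith
    have hd : (2 : ℤ_[2]) ^ (2 * N + b + 1) ∣
        (x.1.1 + (n : ℤ_[2]) - y.1.1) - 2 ^ (2 * N + b) := by
      have : (x.1.1 + (n : ℤ_[2]) - y.1.1) - 2 ^ (2 * N + b) =
          -(y.1.1 + 2 ^ (2 * N + b) - x.1.1 - (n : ℤ_[2])) := by ring
      rw [this]
      exact (dvd_neg).mpr h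
    have := ex_add hE hd
    rwa [add_sub_cancel] at this
  choose n hn using key
  refine ⟨n, ?_, ?_⟩
  · apply tendsto_XP
    · have h0 : Tendsto (fun N => (x.1.1 + ((n N : ℕ) : ℤ_[2]) - y.1.1)) atTop (𝓝 0) := by
        rw [tendsto_zero_iff_norm_tendsto_zero]
        refine squeeze_zero (fun _ => norm_nonneg _)
          (fun N => (dvd_iff_norm _ _).mp (hn N).1) ?_
        have h4 : Tendsto (fun N : ℕ => ((1 / 2 : ℝ)) ^ (2 * N + b)) atTop (𝓝 0) := by
          apply (tendsto_pow_atTop_nhds_zero_of_lt_one (by norm_num)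
            (by norm_num : (1 / 2 : ℝ) < 1)).comp
          apply tendsto_atTop_mono (fun N => (by omega : N ≤ 2 * N + b)) tendsto_id
        refine h4.congr ?_
        intro N
        rw [zpow_neg, zpow_natCast, one_div, inv_pow]
      have h6 := h0.add_const y.1.1
      rw [zero_add] at h6
      refine h6.congr ?_
      intro N
      rw [iterate_TT]
      change x.1.1 + ((n N : ℕ) : ℤ_[2]) - y.1.1 + y.1.1 = x.1.1 + (((n N : ℕ) : ℤ) : ℤ_[2])
      push_cast
      ring
    · intro j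
      by_cases hj : y.1.1 + (j : ℤ_[2]) = 0
      · apply Eventually.of_forall
        intro N
        rw [hb j hj, iterate_TT]
        change x.1.2 (j + ((n N : ℕ) : ℤ)) = _
        have hE : Ex (2 * N + b) (x.1.1 + ((j + ((n N : ℕ) : ℤ) : ℤ) : ℤ_[2])) := by
          have : x.1.1 + ((j + ((n N : ℕ) : ℤ) : ℤ) : ℤ_[2]) =
              x.1.1 + ((n N : ℕ) : ℤ_[2]) - y.1.1 := by
            push_cast
            linear_combination hj
          rw [this]
          exact hn N
        rw [x.2 _ _ hE]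
        congr 1
        have : (2 * N + b) % 2 = b % 2 := by omega
        rw [this]
      · obtain ⟨e, he⟩ := exists_ex hj
        filter_upwards [eventually_ge_atTop (e + 1)] with N hN
        rw [y.2 j e he, iterate_TT]
        change x.1.2 (j + ((n N : ℕ) : ℤ)) = _
        apply x.2
        have : x.1.1 + ((j + ((n N : ℕ) : ℤ) : ℤ) : ℤ_[2]) =
            (y.1.1 + (j : ℤ_[2])) + (x.1.1 + ((n N : ℕ) : ℤ_[2]) - y.1.1) := by
          push_cast
          ring
        rw [this]
        exact ex_add he ((pow_dvd_pow 2 (by omega)).trans (hn N).1)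
  · intro N h
    have := ex_ne_zero (hn N)
    apply this
    rw [h, sub_self]

theorem minimal (x : XP) :
    Dense {y : XP | ∃ n : ℕ, (⇑TT)^[n] x = y ∨ (⇑TT.symm)^[n] x = y} := by
  intro y
  obtain ⟨n, hn, _⟩ := exists_approx x y
  apply mem_closure_of_tendsto hn
  apply Eventually.of_forall
  intro N
  exact ⟨n N, Or.inl rfl⟩

theorem perfect (x : XP) : (𝓝[≠] x).NeBot := by
  obtain ⟨n, hn, hne⟩ := exists_approx x x
  have h : Tendsto (fun N => (⇑TT)^[n N] x) atTop (𝓝[≠] x) := by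
    rw [tendsto_nhdsWithin_iff]
    refine ⟨hn, Eventually.of_forall ?_⟩
    intro N h
    apply hne N
    have h2 : ((⇑TT)^[n N] x).1.1 = x.1.1 := congrArg (fun y : XP => y.1.1) h
    rw [iterate_TT] at h2
    have h3 : x.1.1 + (((n N : ℕ) : ℤ) : ℤ_[2]) = x.1.1 := h2
    push_cast at h3
    exact h3
  exact h.neBot

end Pool.Agent.H98R3.PD
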