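import Pool.Agent.H98R3.PD.P1

/-!
# The invariant measure and rigidity along `2^k`
-/

set_option autoImplicit false

open Filter Topology MeasureTheory
open scoped symmDiff

namespace Pool.Agent.H98R3.PD

noncomputable instance : MeasurableSpace ℤ_[2] := borel _
instance : BorelSpace ℤ_[2] := ⟨rfl⟩
noncomputable instance : MeasurableSpace XP := borel _
instance : BorelSpace XP := ⟨rfl⟩

/-- Almost everywhere pointwise convergence to the identity implies rigidity. -/
theorem rigid_of_ae {X : Type*} [TopologicalSpace X] [TopologicalSpace.MetrizableSpace X]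
    [MeasurableSpace X] [BorelSpace X] (μ : Measure X) [IsProbabilityMeasure μ]
    (f : ℕ → X → X) (hf : ∀ k, MeasurePreserving (f k) μ μ)
    (hae : ∀ᵐ x ∂μ, Tendsto (fun k => f k x) atTop (𝓝 x)) (B : Set X) (hB : MeasurableSet B) :
    Tendsto (fun k => μ ((f k ⁻¹' B) ∆ B)) atTop (𝓝 0) := by
  let _ := TopologicalSpace.metrizableSpaceMetric X
  have hone : Tendsto (fun k => μ (B \ f k ⁻¹' B)) atTop (𝓝 0) := by
    rw [ENNReal.tendsto_nhds_zero]
    intro ε hε
    have hε2 : ε / 2 ≠ 0 := (ENNReal.half_pos hε.ne').ne'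
    obtain ⟨U, hBU, hUo, -, hU⟩ := hB.exists_isOpen_sdiff_lt (μ := μ) (measure_ne_top _ _) hε2
    have hlim : Tendsto (fun k => μ (B \ f k ⁻¹' U)) atTop (𝓝 (μ (∅ : Set X))) := by
      apply tendsto_measure_of_ae_tendsto_indicator_of_isFiniteMeasure atTop MeasurableSet.empty
      · intro k
        exact hB.diff ((hf k).measurable hUo.measurableSet)
      · filter_upwards [hae] with x hx
        by_cases hxB : x ∈ B
        · have := hx.eventually (hUo.mem_nhds (hBU hxB))
          filter_upwards [this] with k hk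
          simp only [Set.mem_sdiff, Set.mem_preimage, Set.mem_empty_iff_false, iff_false, not_and,
            not_not]
          intro _
          exact hk
        · apply Eventually.of_forall
          intro k
          simp [hxB]
    rw [measure_empty] at hlim
    rw [ENNReal.tendsto_nhds_zero] at hlim
    filter_upwards [hlim (ε / 2) (ENNReal.half_pos hε.ne')] with k hk
    have hsub : B \ f k ⁻¹' B ⊆ (B \ f k ⁻¹' U) ∪ f k ⁻¹' (U \ B) := by
      intro x hx
      by_cases hxU : f k x ∈ U
      · right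
        exact ⟨hxU, hx.2⟩
      · left
        exact ⟨hx.1, hxU⟩
    calc μ (B \ f k ⁻¹' B) ≤ μ ((B \ f k ⁻¹' U) ∪ f k ⁻¹' (U \ B)) := measure_mono hsub
      _ ≤ μ (B \ f k ⁻¹' U) + μ (f k ⁻¹' (U \ B)) := measure_union_le _ _
      _ ≤ ε / 2 + ε / 2 := by
          gcongr
          rw [(hf k).measure_preimage (hUo.measurableSet.diff hB).nullMeasurableSet]
          exact hU.le
      _ = ε := ENNReal.add_halves ε
  have hsymm : ∀ k, μ ((f k ⁻¹' B) ∆ B) = 2 * μ (B \ f k ⁻¹' B) := by
    intro k
    have hm : MeasurableSet (f k ⁻¹' B) := (hf k).measurable hB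
    have h1 : μ (f k ⁻¹' B) = μ B := (hf k).measure_preimage hB.nullMeasurableSet
    have h2 : μ (f k ⁻¹' B \ B) = μ (B \ f k ⁻¹' B) := by
      have e1 := measure_inter_add_sdiff (μ := μ) (f k ⁻¹' B) hB
      have e2 := measure_inter_add_sdiff (μ := μ) B hm
      rw [h1, ← e2, Set.inter_comm B] at e1
      exact (ENNReal.add_right_inj (measure_ne_top _ _)).mp e1
    rw [measure_symmDiff_eq hm.nullMeasurableSet hB.nullMeasurableSet, h2, two_mul]
  simp_rw [hsymm]
  have := ENNReal.Tendsto.const_mul (a := 2) hone (Or.inr (by norm_num))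
  simpa using this

/-- Section of the projection to the dyadic integers. -/
noncomputable def phi (z : ℤ_[2]) : XP := by
  classical
  exact ⟨(z, fun j => decide (∃ n, n % 2 = 1 ∧ Ex n (z + (j : ℤ_[2])))), by
    intro j n h
    simp only
    by_cases hn : n % 2 = 1
    · simp only [hn, decide_true, decide_eq_true_eq]
      exact ⟨n, hn, h⟩
    · simp only [hn, decide_false, decide_eq_false_iff_not]
      rintro ⟨m, hm, hm2⟩
      exact hn (by rw [ex_unique h hm2]; exact hm)⟩

theorem phi_fst (z : ℤ_[2]) : (phi z).1.1 = z := rfl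

theorem phi_snd (z : ℤ_[2]) (j : ℤ) :
    (phi z).1.2 j = true ↔ ∃ n, n % 2 = 1 ∧ Ex n (z + (j : ℤ_[2])) := by
  unfold phi
  simp only [decide_eq_true_eq]

theorem sh_phi (a : ℤ) (z : ℤ_[2]) : sh a (phi z) = phi (z + a) := by
  apply Subtype.ext
  apply Prod.ext
  · rfl
  · funext j
    change (phi z).1.2 (j + a) = (phi (z + a)).1.2 j
    rw [Bool.eq_iff_iff, phi_snd, phi_snd]
    have : z + ((j + a : ℤ) : ℤ_[2]) = z + (a : ℤ_[2]) + (j : ℤ_[2]) := by
      push_cast; ring
    rw [this]

theorem measurable_phi : Measurable phi := by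
  have hemb : MeasurableEmbedding (fun x : XP => x.1) := by
    apply Topology.IsClosedEmbedding.measurableEmbedding
    exact isClosed_cond.isClosedEmbedding_subtypeVal
  rw [← hemb.measurable_comp_iff]
  refine Measurable.prodMk measurable_id ?_
  rw [measurable_pi_iff]
  intro j
  apply measurable_to_bool
  have : (fun x => ((fun x : XP => x.1) ∘ phi) x |>.2 j) ⁻¹' {true} =
      ⋃ n : {n : ℕ // n % 2 = 1}, (fun z : ℤ_[2] => z + (j : ℤ_[2])) ⁻¹' {w | Ex n w} := by
    ext z
    simp only [Set.mem_preimage, Set.mem_singleton_iff, Set.mem_iUnion, Set.mem_ofPred_eq]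
    constructor
    · intro h
      obtain ⟨n, hn, hn2⟩ := (phi_snd z j).mp h
      exact ⟨⟨n, hn⟩, hn2⟩
    · rintro ⟨⟨n, hn⟩, hn2⟩
      exact (phi_snd z j).mpr ⟨n, hn, hn2⟩
  change MeasurableSet ((fun x => ((fun x : XP => x.1) ∘ phi) x |>.2 j) ⁻¹' {true})
  rw [this]
  apply MeasurableSet.iUnion
  intro n
  exact ((isClopen_ex n).preimage (by fun_prop)).isOpen.measurableSet

/-- Haar measure on the dyadic integers. -/
noncomputable def hh : Measure ℤ_[2] := Measure.addHaarMeasure ⊤

instance : IsProbabilityMeasure hh := ⟨by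
  have := Measure.addHaarMeasure_self (K₀ := (⊤ : TopologicalSpace.PositiveCompacts ℤ_[2]))
  rw [TopologicalSpace.PositiveCompacts.coe_top] at this
  exact this⟩

instance : hh.IsAddHaarMeasure := by
  unfold hh
  infer_instance

/-- The invariant measure. -/
noncomputable def mu : Measure XP := hh.map phi

instance : IsProbabilityMeasure mu :=
  Measure.isProbabilityMeasure_map measurable_phi.aemeasurable

theorem mp_sh (a : ℤ) : MeasurePreserving (sh a) mu mu := by
  refine ⟨(continuous_sh a).measurable, ?_⟩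
  unfold mu
  rw [Measure.map_map (continuous_sh a).measurable measurable_phi]
  have h1 : (sh a ∘ phi) = phi ∘ (fun z : ℤ_[2] => z + (a : ℤ_[2])) := by
    funext z
    exact sh_phi a z
  have h2 := (measurePreserving_add_right hh (a : ℤ_[2]))
  rw [h1, ← Measure.map_map measurable_phi h2.measurable, h2.map_eq]

theorem mp_TT : MeasurePreserving (⇑TT) mu mu := mp_sh 1

instance : (𝓝[≠] (0 : ℤ_[2])).NeBot := by
  have h : Tendsto (fun N : ℕ => (2 : ℤ_[2]) ^ N) atTop (𝓝[≠] 0) := by
    rw [tendsto_nhdsWithin_iff]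
    constructor
    · rw [tendsto_zero_iff_norm_tendsto_zero]
      refine squeeze_zero (fun _ => norm_nonneg _)
          (fun N => (dvd_iff_norm _ _).mp (dvd_refl _)) ?_
      have h4 : Tendsto (fun N : ℕ => ((1 / 2 : ℝ)) ^ N) atTop (𝓝 0) :=
        (tendsto_pow_atTop_nhds_zero_of_lt_one (by norm_num)
            (by norm_num : (1 / 2 : ℝ) < 1))
      refine h4.congr ?_
      intro N
      rw [zpow_neg, zpow_natCast, one_div, inv_pow]
    · apply Eventually.of_forall
      intro N
      exact pow_ne_zero _ two_ne_zero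
  exact h.neBot

theorem ae_not_int : ∀ᵐ x ∂mu, ∀ j : ℤ, x.1.1 + (j : ℤ_[2]) ≠ 0 := by
  unfold mu
  rw [ae_map_iff measurable_phi.aemeasurable]
  · rw [ae_all_iff]
    intro j
    rw [ae_iff]
    have : {a : ℤ_[2] | ¬ ((phi a).1.1 + (j : ℤ_[2]) ≠ 0)} = {-(j : ℤ_[2])} := by
      ext a
      simp only [phi_fst, not_not, Set.mem_ofPred_eq, Set.mem_singleton_iff]
      exact ⟨fun h => eq_neg_of_add_eq_zero_left h, fun h => by rw [h]; ring⟩
    rw [this]
    exact measure_singleton _
  · have : {x : XP | ∀ j : ℤ, x.1.1 + (j : ℤ_[2]) ≠ 0} =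
        ⋂ j : ℤ, (fun x : XP => x.1.1 + (j : ℤ_[2])) ⁻¹' {0}ᶜ := by
      ext x
      simp
    rw [this]
    apply MeasurableSet.iInter
    intro j
    apply IsOpen.measurableSet
    apply IsOpen.preimage _ isOpen_compl_singleton
    exact (continuous_fst.comp continuous_val).add continuous_const

theorem ae_tendsto : ∀ᵐ x ∂mu, Tendsto (fun k : ℕ => sh (2 ^ k) x) atTop (𝓝 x) := by
  filter_upwards [ae_not_int] with x hx
  apply tendsto_XP
  · have h0 : Tendsto (fun N : ℕ => (2 : ℤ_[2]) ^ N) atTop (𝓝 0) := by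
      rw [tendsto_zero_iff_norm_tendsto_zero]
      refine squeeze_zero (fun _ => norm_nonneg _)
          (fun N => (dvd_iff_norm _ _).mp (dvd_refl _)) ?_
      have h4 : Tendsto (fun N : ℕ => ((1 / 2 : ℝ)) ^ N) atTop (𝓝 0) :=
        (tendsto_pow_atTop_nhds_zero_of_lt_one (by norm_num)
            (by norm_num : (1 / 2 : ℝ) < 1))
      refine h4.congr ?_
      intro N
      rw [zpow_neg, zpow_natCast, one_div, inv_pow]
    have h6 := h0.const_add x.1.1
    rw [add_zero] at h6
    refine h6.congr ?_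
    intro N
    change x.1.1 + (2 : ℤ_[2]) ^ N = x.1.1 + ((2 ^ N : ℤ) : ℤ_[2])
    push_cast
    rfl
  · intro j
    obtain ⟨e, he⟩ := exists_ex (hx j)
    filter_upwards [eventually_ge_atTop (e + 1)] with N hN
    rw [x.2 j e he]
    change x.1.2 (j + 2 ^ N) = _
    apply x.2
    have : x.1.1 + ((j + 2 ^ N : ℤ) : ℤ_[2]) = (x.1.1 + (j : ℤ_[2])) + (2 : ℤ_[2]) ^ N := by
      push_cast
      ring
    rw [this]
    exact ex_add he (pow_dvd_pow 2 hN)

theorem rigid_TT (B : Set XP) (hB : MeasurableSet B) :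
    Tendsto (fun k => mu (((⇑TT)^[2 ^ k] ⁻¹' B) ∆ B)) atTop (𝓝 0) := by
  have h := rigid_of_ae mu (fun k : ℕ => sh (2 ^ k)) (fun k => mp_sh _) ae_tendsto B hB
  refine h.congr ?_
  intro k
  have : (⇑TT)^[2 ^ k] = sh (2 ^ k) := by
    funext x
    rw [iterate_TT]
    push_cast
    rfl
  rw [this]

end Pool.Agent.H98R3.PD
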