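import Pool.Agent.H98R3.PD.P2

/-!
# Counting visits and non-rigidity of the induced map
-/

set_option autoImplicit false

open Filter Topology MeasureTheory
open scoped symmDiff

namespace Pool.Agent.H98R3.PD

theorem ex_two_pow (n : ℕ) : Ex n ((2 : ℤ_[2]) ^ n) := by
  refine ⟨dvd_rfl, ?_⟩
  intro hd
  rw [dvd_iff_norm] at hd
  have h2 : ((2 : ℕ) : ℤ_[2]) = 2 := by norm_num
  have h5 : ‖(2 : ℤ_[2]) ^ n‖ = (2 : ℝ) ^ (-(n : ℤ)) := by
    have := PadicInt.norm_p_pow (p := 2) n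
    rw [h2] at this
    exact_mod_cast this
  rw [h5] at hd
  have : (2 : ℝ) ^ (-((n + 1 : ℕ) : ℤ)) < (2 : ℝ) ^ (-(n : ℤ)) := by
    apply zpow_lt_zpow_right₀ (by norm_num)
    push_cast
    omega
  linarith

theorem exists_nat_congr (z : ℤ_[2]) (n : ℕ) :
    ∃ a : ℕ, a < 2 ^ n ∧ (2 : ℤ_[2]) ^ n ∣ z - (a : ℤ_[2]) := by
  refine ⟨z.appr n, PadicInt.appr_lt z n, ?_⟩
  have h := PadicInt.appr_spec n z
  rw [Ideal.mem_span_singleton] at h
  have h2 : ((2 : ℕ) : ℤ_[2]) = 2 := by norm_num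
  rwa [h2] at h

theorem dvd_int {n : ℕ} {a : ℤ} (h : (2 : ℤ_[2]) ^ n ∣ (a : ℤ_[2])) : (2 : ℤ) ^ n ∣ a := by
  have h2 : ((2 : ℕ) : ℤ_[2]) = 2 := by norm_num
  have h3 := (PadicInt.pow_p_dvd_int_iff (p := 2) n a).mp (by rw [h2]; exact h)
  exact_mod_cast h3

/-- The visits to the clopen set: number of `j < t` with `x (a + j) = false`. -/
def cc (s : ℤ → Bool) (a : ℤ) (t : ℕ) : ℕ :=
  ∑ j ∈ Finset.range t, (if s (a + j) = false then 1 else 0)

theorem cc_zero (s : ℤ → Bool) (a : ℤ) : cc s a 0 = 0 := rfl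

theorem cc_succ (s : ℤ → Bool) (a : ℤ) (t : ℕ) :
    cc s a (t + 1) = cc s a t + (if s (a + t) = false then 1 else 0) := by
  unfold cc
  rw [Finset.sum_range_succ]

theorem cc_add (s : ℤ → Bool) (a : ℤ) (t u : ℕ) :
    cc s a (t + u) = cc s a t + cc s (a + t) u := by
  induction u with
  | zero => simp [cc_zero]
  | succ u ih =>
    rw [← add_assoc, cc_succ, cc_succ, ih]
    have : a + ((t + u : ℕ) : ℤ) = a + t + u := by push_cast; ring
    rw [this]
    ring

theorem cc_mono (s : ℤ → Bool) (a : ℤ) {t u : ℕ} (h : t ≤ u) : cc s a t ≤ cc s a u := by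
  obtain ⟨d, rfl⟩ := Nat.exists_eq_add_of_le h
  rw [cc_add]
  omega

theorem cc_unique (s : ℤ → Bool) (a : ℤ) {t u m : ℕ} (ht : s (a + t) = false)
    (hu : s (a + u) = false) (h1 : cc s a t = m) (h2 : cc s a u = m) : t = u := by
  rcases lt_trichotomy t u with h | h | h
  · have h3 := cc_mono s a (show t + 1 ≤ u from h)
    rw [cc_succ, if_pos ht] at h3
    omega
  · exact h
  · have h3 := cc_mono s a (show u + 1 ≤ t from h)
    rw [cc_succ, if_pos hu] at h3
    omega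

/-- No two consecutive positions carry `true`. -/
def NC (s : ℤ → Bool) : Prop := ∀ j : ℤ, s j = false ∨ s (j + 1) = false

theorem nc_of (x : XP) : NC x.1.2 := by
  intro j
  by_cases h : (2 : ℤ_[2]) ^ 1 ∣ x.1.1 + (j : ℤ_[2])
  · right
    have he : Ex 0 (x.1.1 + ((j + 1 : ℤ) : ℤ_[2])) := by
      refine ⟨by simp, ?_⟩
      intro h2
      have h3 := dvd_sub h2 h
      have h4 : x.1.1 + ((j + 1 : ℤ) : ℤ_[2]) - (x.1.1 + (j : ℤ_[2])) = ((1 : ℤ) : ℤ_[2]) := by
        push_cast; ring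
      rw [h4] at h3
      have := dvd_int (n := 1) h3
      omega
    rw [x.2 _ _ he]
    rfl
  · left
    have he : Ex 0 (x.1.1 + (j : ℤ_[2])) := ⟨by simp, h⟩
    rw [x.2 _ _ he]
    rfl

theorem cc_lower {s : ℤ → Bool} (hs : NC s) (a : ℤ) (n : ℕ) : n ≤ cc s a (2 * n) := by
  induction n with
  | zero => simp
  | succ n ih =>
    have : 2 * (n + 1) = 2 * n + 1 + 1 := by ring
    rw [this, cc_succ, cc_succ]
    have h := hs (a + ((2 * n : ℕ) : ℤ))
    have e : a + ((2 * n : ℕ) : ℤ) + 1 = a + ((2 * n + 1 : ℕ) : ℤ) := by push_cast; ring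
    rw [e] at h
    rcases h with h | h
    · rw [if_pos h]
      omega
    · rw [if_pos h]
      omega

/-- Existence of the `m`-th visit. -/
theorem exists_visit {s : ℤ → Bool} (hs : NC s) (a : ℤ) (m : ℕ) :
    ∃ t : ℕ, t < 2 * (m + 1) ∧ s (a + t) = false ∧ cc s a t = m := by
  classical
  have hex : ∃ u : ℕ, m < cc s a u := ⟨2 * (m + 1), cc_lower hs a (m + 1)⟩
  have hu := Nat.find_spec hex
  have hle : Nat.find hex ≤ 2 * (m + 1) := Nat.find_le (cc_lower hs a (m + 1))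
  have hne : Nat.find hex ≠ 0 := by
    intro h0
    rw [h0, cc_zero] at hu
    omega
  obtain ⟨t, ht⟩ := Nat.exists_eq_succ_of_ne_zero hne
  have hmin := Nat.find_min hex (m := t) (by omega)
  rw [ht] at hu
  rw [Nat.succ_eq_add_one, cc_succ] at hu
  by_cases hf : s (a + t) = false
  · rw [if_pos hf] at hu
    exact ⟨t, by omega, hf, by omega⟩
  · rw [if_neg hf] at hu
    omega

theorem near_above {s : ℤ → Bool} (hs : NC s) (a : ℤ) (t m : ℕ) (h : cc s a t = m + 1) :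
    ∃ u : ℕ, (u + 1 = t ∨ u + 2 = t) ∧ s (a + u) = false ∧ cc s a u = m := by
  have ht : t ≠ 0 := by rintro rfl; rw [cc_zero] at h; omega
  obtain ⟨t1, rfl⟩ := Nat.exists_eq_succ_of_ne_zero ht
  rw [Nat.succ_eq_add_one, cc_succ] at h
  by_cases h1 : s (a + t1) = false
  · rw [if_pos h1] at h
    exact ⟨t1, Or.inl rfl, h1, by omega⟩
  · rw [if_neg h1] at h
    have ht1 : t1 ≠ 0 := by rintro rfl; rw [cc_zero] at h; omega
    obtain ⟨t2, rfl⟩ := Nat.exists_eq_succ_of_ne_zero ht1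
    rw [Nat.succ_eq_add_one, cc_succ] at h
    have h2 := hs (a + (t2 : ℤ))
    have e : a + (t2 : ℤ) + 1 = a + ((t2.succ : ℕ) : ℤ) := by push_cast; ring
    rw [e] at h2
    rcases h2 with h2 | h2
    · rw [if_pos h2] at h
      exact ⟨t2, Or.inr rfl, h2, by omega⟩
    · exact absurd h2 h1

theorem near_below {s : ℤ → Bool} (hs : NC s) (a : ℤ) (t m : ℕ) (h : cc s a t + 1 = m) :
    ∃ u : ℕ, t + 1 ≤ u ∧ u ≤ t + 3 ∧ s (a + u) = false ∧ cc s a u = m := by
  have e1 : a + (t : ℤ) + 1 = a + ((t + 1 : ℕ) : ℤ) := by push_cast; ring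
  have e2 : a + ((t + 1 : ℕ) : ℤ) + 1 = a + ((t + 2 : ℕ) : ℤ) := by push_cast; ring
  have e3 : a + ((t + 2 : ℕ) : ℤ) + 1 = a + ((t + 3 : ℕ) : ℤ) := by push_cast; ring
  have c1 := cc_succ s a t
  have c2 : cc s a (t + 2) = cc s a (t + 1) +
      (if s (a + ((t + 1 : ℕ) : ℤ)) = false then 1 else 0) := cc_succ s a (t + 1)
  have c3 : cc s a (t + 3) = cc s a (t + 2) +
      (if s (a + ((t + 2 : ℕ) : ℤ)) = false then 1 else 0) := cc_succ s a (t + 2)
  by_cases h0 : s (a + t) = false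
  · rw [if_pos h0] at c1
    by_cases h1 : s (a + ((t + 1 : ℕ) : ℤ)) = false
    · exact ⟨t + 1, by omega, by omega, h1, by omega⟩
    · have h2 := hs (a + ((t + 1 : ℕ) : ℤ))
      rw [e2] at h2
      rcases h2 with h2 | h2
      · exact absurd h2 h1
      · rw [if_neg h1, Nat.add_zero] at c2
        exact ⟨t + 2, by omega, by omega, h2, by omega⟩
  · rw [if_neg h0] at c1
    have h1 := hs (a + (t : ℤ))
    rw [e1] at h1
    rcases h1 with h1 | h1
    · exact absurd h1 h0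
    · rw [if_pos h1] at c2
      by_cases h2 : s (a + ((t + 2 : ℕ) : ℤ)) = false
      · exact ⟨t + 2, by omega, by omega, h2, by omega⟩
      · have h3 := hs (a + ((t + 2 : ℕ) : ℤ))
        rw [e3] at h3
        rcases h3 with h3 | h3
        · exact absurd h3 h2
        · rw [if_neg h2] at c3
          exact ⟨t + 3, by omega, by omega, h3, by omega⟩

/-- Changing the base point: the increments of the window counts. -/
theorem window_step (s : ℤ → Bool) (a : ℤ) (L t : ℕ) :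
    cc s (a + L) t + cc s a L = cc s a t + cc s (a + t) L := by
  have h1 := cc_add s a L t
  have h2 := cc_add s a t L
  rw [add_comm L t] at h1
  omega

/-- Comparison of the counts of two windows which agree except possibly at one place. -/
theorem cc_single (s : ℤ → Bool) (a b : ℤ) (L j0 : ℕ) (hj0 : j0 < L)
    (h : ∀ j : ℕ, j < L → j ≠ j0 → s (a + j) = s (b + j)) :
    cc s a L + (if s (b + j0) = false then 1 else 0) =
      cc s b L + (if s (a + j0) = false then 1 else 0) := by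
  unfold cc
  have hmem : j0 ∈ Finset.range L := Finset.mem_range.mpr hj0
  rw [← Finset.add_sum_erase _ _ hmem, ← Finset.add_sum_erase (Finset.range L)
    (fun j => if s (b + ↑j) = false then 1 else 0) hmem]
  have : ∑ x ∈ (Finset.range L).erase j0, (if s (a + ↑x) = false then 1 else 0) =
      ∑ x ∈ (Finset.range L).erase j0, (if s (b + ↑x) = false then 1 else 0) := by
    apply Finset.sum_congr rfl
    intro j hj
    rw [Finset.mem_erase, Finset.mem_range] at hj
    rw [h j hj.2 hj.1]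
  rw [this]
  ring

/-- Key lemma: within four steps of length `2^v`, the count of the window of length `t` changes
by exactly one. -/
theorem key (x : XP) (t v : ℕ) (ht : Ex v ((t : ℕ) : ℤ_[2])) :
    ∃ i : ℕ, 1 ≤ i ∧ i ≤ 4 ∧
      (cc x.1.2 ((i * 2 ^ v : ℕ) : ℤ) t = cc x.1.2 0 t + 1 ∨
        cc x.1.2 ((i * 2 ^ v : ℕ) : ℤ) t + 1 = cc x.1.2 0 t) := by
  classical
  set s := x.1.2 with hs
  set z := x.1.1 with hz
  obtain ⟨j0, hj0, hd⟩ := exists_nat_congr (-z) v
  have hd' : (2 : ℤ_[2]) ^ v ∣ z + (j0 : ℤ_[2]) := by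
    have := (dvd_neg).mpr hd
    have e : -(-z - (j0 : ℤ_[2])) = z + (j0 : ℤ_[2]) := by ring
    rwa [e] at this
  obtain ⟨w, hw⟩ := hd'
  -- increments
  have hstep : ∀ i : ℕ, cc s (((i + 1) * 2 ^ v : ℕ) : ℤ) t +
      (if s (((i * 2 ^ v : ℕ) : ℤ) + j0) = false then 1 else 0) =
      cc s ((i * 2 ^ v : ℕ) : ℤ) t +
      (if s (((i * 2 ^ v : ℕ) : ℤ) + t + j0) = false then 1 else 0) := by
    intro i
    have h1 := window_step s ((i * 2 ^ v : ℕ) : ℤ) (2 ^ v) t
    have e1 : ((i * 2 ^ v : ℕ) : ℤ) + ((2 ^ v : ℕ) : ℤ) = (((i + 1) * 2 ^ v : ℕ) : ℤ) := by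
      push_cast; ring
    rw [e1] at h1
    have h2 := cc_single s (((i * 2 ^ v : ℕ) : ℤ) + t) ((i * 2 ^ v : ℕ) : ℤ) (2 ^ v) j0 hj0 (by
      intro j hj hne
      -- valuations smaller than v
      have hnd : ¬ (2 : ℤ_[2]) ^ v ∣ z + (((i * 2 ^ v : ℕ) : ℤ) + j : ℤ) := by
        intro hdv
        have h3 : (2 : ℤ_[2]) ^ v ∣ ((((j : ℤ) - j0 : ℤ)) : ℤ_[2]) := by
          have h4 : ((((j : ℤ) - j0 : ℤ)) : ℤ_[2]) =
              (z + (((i * 2 ^ v : ℕ) : ℤ) + j : ℤ)) - (z + (j0 : ℤ_[2])) -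
                (2 : ℤ_[2]) ^ v * (i : ℤ_[2]) := by
            push_cast; ring
          rw [h4, hw]
          exact dvd_sub (dvd_sub hdv (Dvd.intro _ rfl)) (Dvd.intro _ rfl)
        have h5 := dvd_int h3
        have h6 : ((j : ℤ) - j0) = 0 := by
          apply Int.eq_zero_of_abs_lt_dvd h5
          rw [abs_lt]
          have a1 : ((j : ℕ) : ℤ) < 2 ^ v := by exact_mod_cast hj
          have a2 : ((j0 : ℕ) : ℤ) < 2 ^ v := by exact_mod_cast hj0
          constructor <;> omega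
        apply hne
        omega
      have hne0 : z + ((((i * 2 ^ v : ℕ) : ℤ) + j : ℤ) : ℤ_[2]) ≠ 0 := by
        intro h0
        rw [h0] at hnd
        exact hnd (dvd_zero _)
      obtain ⟨e, he⟩ := exists_ex hne0
      have hev : e + 1 ≤ v := by
        by_contra hlt
        push Not at hlt
        exact hnd ((pow_dvd_pow 2 (by omega)).trans he.1)
      have he' : Ex e (z + ((((i * 2 ^ v : ℕ) : ℤ) + t + j : ℤ) : ℤ_[2])) := by
        have h7 : z + ((((i * 2 ^ v : ℕ) : ℤ) + t + j : ℤ) : ℤ_[2]) =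
            z + ((((i * 2 ^ v : ℕ) : ℤ) + j : ℤ) : ℤ_[2]) + ((t : ℕ) : ℤ_[2]) := by
          push_cast; ring
        rw [h7]
        exact ex_add he ((pow_dvd_pow 2 hev).trans ht.1)
      rw [hs, x.2 _ _ he, x.2 _ _ he'])
    omega
  -- a place with a mismatch
  obtain ⟨i0, hi0, hdi⟩ := exists_nat_congr (2 - w) 2
  have hmis : s (((i0 * 2 ^ v : ℕ) : ℤ) + j0) ≠ s (((i0 * 2 ^ v : ℕ) : ℤ) + t + j0) := by
    obtain ⟨u, hu⟩ := hdi
    have hE1 : Ex (v + 1) (z + ((((i0 * 2 ^ v : ℕ) : ℤ) + j0 : ℤ) : ℤ_[2])) := by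
      have h7 : z + ((((i0 * 2 ^ v : ℕ) : ℤ) + j0 : ℤ) : ℤ_[2]) =
          (2 : ℤ_[2]) ^ (v + 1) + (2 : ℤ_[2]) ^ (v + 1 + 1) * (-u) := by
        have h8 : z + ((((i0 * 2 ^ v : ℕ) : ℤ) + j0 : ℤ) : ℤ_[2]) =
            (z + (j0 : ℤ_[2])) + (2 : ℤ_[2]) ^ v * (i0 : ℤ_[2]) := by
          push_cast; ring
        rw [h8, hw]
        linear_combination (-(2 : ℤ_[2]) ^ v) * hu
      rw [h7]
      exact ex_add (ex_two_pow (v + 1)) (Dvd.intro _ rfl)
    have hE2 : Ex v (z + ((((i0 * 2 ^ v : ℕ) : ℤ) + t + j0 : ℤ) : ℤ_[2])) := by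
      have h7 : z + ((((i0 * 2 ^ v : ℕ) : ℤ) + t + j0 : ℤ) : ℤ_[2]) =
          ((t : ℕ) : ℤ_[2]) + (z + ((((i0 * 2 ^ v : ℕ) : ℤ) + j0 : ℤ) : ℤ_[2])) := by
        push_cast; ring
      rw [h7]
      exact ex_add ht hE1.1
    rw [hs, x.2 _ _ hE1, x.2 _ _ hE2]
    intro h
    rw [Bool.eq_iff_iff, decide_eq_true_eq, decide_eq_true_eq] at h
    omega
  -- first change
  have hchange : ∃ i : ℕ, cc s (((i + 1) * 2 ^ v : ℕ) : ℤ) t ≠ cc s ((i * 2 ^ v : ℕ) : ℤ) t := by
    refine ⟨i0, ?_⟩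
    have h := hstep i0
    intro heq
    rw [heq] at h
    have h' := Nat.add_left_cancel h
    by_cases ha : s (((i0 * 2 ^ v : ℕ) : ℤ) + j0) = false
    · rw [if_pos ha] at h'
      by_cases hb : s (((i0 * 2 ^ v : ℕ) : ℤ) + t + j0) = false
      · exact hmis (ha.trans hb.symm)
      · rw [if_neg hb] at h'
        omega
    · rw [if_neg ha] at h'
      by_cases hb : s (((i0 * 2 ^ v : ℕ) : ℤ) + t + j0) = false
      · rw [if_pos hb] at h'
        omega
      · apply hmis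
        rw [Bool.not_eq_false] at ha hb
        rw [ha, hb]
  have hfind : Nat.find hchange ≤ i0 := by
    apply Nat.find_le
    have h := hstep i0
    intro heq
    rw [heq] at h
    have h' := Nat.add_left_cancel h
    by_cases ha : s (((i0 * 2 ^ v : ℕ) : ℤ) + j0) = false
    · rw [if_pos ha] at h'
      by_cases hb : s (((i0 * 2 ^ v : ℕ) : ℤ) + t + j0) = false
      · exact hmis (ha.trans hb.symm)
      · rw [if_neg hb] at h'
        omega
    · rw [if_neg ha] at h'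
      by_cases hb : s (((i0 * 2 ^ v : ℕ) : ℤ) + t + j0) = false
      · rw [if_pos hb] at h'
        omega
      · apply hmis
        rw [Bool.not_eq_false] at ha hb
        rw [ha, hb]
  set k := Nat.find hchange with hk
  have hspec := Nat.find_spec hchange
  have hconst : ∀ i : ℕ, i ≤ k → cc s ((i * 2 ^ v : ℕ) : ℤ) t = cc s 0 t := by
    intro i
    induction i with
    | zero => intro _; simp
    | succ i ih =>
      intro hi
      have hmin := Nat.find_min hchange (m := i) (by omega)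
      push Not at hmin
      rw [hmin, ih (by omega)]
  refine ⟨k + 1, by omega, ?_, ?_⟩
  · have : i0 < 4 := by simpa using hi0
    omega
  · have h1 := hstep k
    have h2 := hconst k le_rfl
    rw [h2] at h1
    rw [← hk, h2] at hspec
    split_ifs at h1 <;> omega

end Pool.Agent.H98R3.PD
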