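import Pool.Agent.H98R3.PD.P3

/-!
# The induced map is not rigid
-/

set_option autoImplicit false

open Filter Topology MeasureTheory
open scoped symmDiff

namespace Pool.Agent.H98R3.PD

/-- Points over odd dyadic integers. -/
def OO : Set XP := {x | ¬ (2 : ℤ_[2]) ^ 1 ∣ x.1.1}

/-- Points over odd dyadic integers whose `m`-th visit time is `t`. -/
def VV (m t : ℕ) : Set XP := {x | x ∈ OO ∧ x.1.2 t = false ∧ cc x.1.2 0 t = m}

/-- Visit time close to, but different from, `8 q`. -/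
def NN (m q : ℕ) : Set XP :=
  {x | ∃ s : ℕ, 8 * q ≤ s + 2 ∧ s ≤ 8 * q + 3 ∧ s ≠ 8 * q ∧ x ∈ VV m s}

/-- Visit time not divisible by `8`. -/
def Bad (m : ℕ) : Set XP := {x | ∃ s : ℕ, ¬ 8 ∣ s ∧ x ∈ VV m s}

theorem continuous_fst' : Continuous (fun x : XP => x.1.1) := continuous_fst.comp continuous_val

theorem continuous_coord (j : ℤ) : Continuous (fun x : XP => x.1.2 j) :=
  (continuous_apply j).comp (continuous_snd.comp continuous_val)

theorem isClopen_coord (j : ℤ) : IsClopen {x : XP | x.1.2 j = false} :=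
  (isClopen_discrete {false}).preimage (continuous_coord j)

theorem isClopen_OO : IsClopen OO :=
  ((isClopen_dvd 1).preimage continuous_fst').compl

theorem isClopen_cc (a : ℤ) (t m : ℕ) : IsClopen {x : XP | cc x.1.2 a t = m} := by
  have h : Continuous (fun x : XP => cc x.1.2 a t) := by
    unfold cc
    apply continuous_finsetSum
    intro j _
    have : (fun x : XP => if x.1.2 (a + (j : ℤ)) = false then 1 else 0) =
        (fun b : Bool => if b = false then 1 else 0) ∘ (fun x : XP => x.1.2 (a + (j : ℤ))) := rfl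
    rw [this]
    exact continuous_of_discreteTopology.comp (continuous_coord _)
  exact (isClopen_discrete {m}).preimage h

theorem isClopen_VV (m t : ℕ) : IsClopen (VV m t) :=
  isClopen_OO.inter ((isClopen_coord t).inter (isClopen_cc 0 t m))

theorem isOpen_NN (m q : ℕ) : IsOpen (NN m q) := by
  have : NN m q = ⋃ s : {s : ℕ // 8 * q ≤ s + 2 ∧ s ≤ 8 * q + 3 ∧ s ≠ 8 * q}, VV m s := by
    ext x
    simp only [NN, Set.mem_ofPred_eq, Set.mem_iUnion]
    constructor
    · rintro ⟨s, h1, h2, h3, h4⟩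
      exact ⟨⟨s, h1, h2, h3⟩, h4⟩
    · rintro ⟨⟨s, h1, h2, h3⟩, h4⟩
      exact ⟨s, h1, h2, h3, h4⟩
  rw [this]
  exact isOpen_iUnion (fun s => (isClopen_VV m s).isOpen)

theorem cc_shift (s : ℤ → Bool) (a b : ℤ) (t : ℕ) :
    cc (fun j => s (j + b)) a t = cc s (a + b) t := by
  unfold cc
  apply Finset.sum_congr rfl
  intro j _
  have : a + (j : ℤ) + b = a + b + j := by ring
  simp only [this]

theorem visit_unique {x : XP} {m s t : ℕ} (hs : x ∈ VV m s) (ht : x ∈ VV m t) : s = t := by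
  apply cc_unique x.1.2 0 (t := s) (u := t) (m := m)
  · rw [zero_add]; exact hs.2.1
  · rw [zero_add]; exact ht.2.1
  · exact hs.2.2
  · exact ht.2.2

theorem VV_subset (m q v : ℕ) (hv : Ex v (((8 * q : ℕ) : ℕ) : ℤ_[2])) :
    VV m (8 * q) ⊆ ⋃ i ∈ Finset.Icc 1 4, (sh ((i * 2 ^ v : ℕ) : ℤ)) ⁻¹' (NN m q) := by
  intro x hx
  obtain ⟨hO, hf, hc⟩ := hx
  have hv1 : 1 ≤ v := by
    by_contra h0
    have h0' : v = 0 := by omega
    rw [h0'] at hv
    apply hv.2
    refine ⟨((4 * q : ℕ) : ℤ_[2]), ?_⟩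
    push_cast
    ring
  obtain ⟨i, hi1, hi4, hi⟩ := key x (8 * q) v hv
  simp only [Set.mem_iUnion]
  refine ⟨i, Finset.mem_Icc.mpr ⟨hi1, hi4⟩, ?_⟩
  rw [Set.mem_preimage]
  set y := sh ((i * 2 ^ v : ℕ) : ℤ) x with hy
  have hyO : y ∈ OO := by
    intro h
    apply hO
    have h1 : y.1.1 = x.1.1 + (((i * 2 ^ v : ℕ) : ℤ) : ℤ_[2]) := rfl
    rw [h1] at h
    have h2 : (2 : ℤ_[2]) ^ 1 ∣ (((i * 2 ^ v : ℕ) : ℤ) : ℤ_[2]) := by
      push_cast
      exact Dvd.dvd.mul_left (pow_dvd_pow 2 hv1) _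
    have h3 := dvd_sub h h2
    rwa [add_sub_cancel_right] at h3
  have hcy : cc y.1.2 0 (8 * q) = cc x.1.2 ((i * 2 ^ v : ℕ) : ℤ) (8 * q) := by
    have h1 : y.1.2 = fun j => x.1.2 (j + ((i * 2 ^ v : ℕ) : ℤ)) := rfl
    rw [h1, cc_shift, zero_add]
  rcases hi with hi | hi
  · rw [← hcy, hc] at hi
    obtain ⟨u, hu, hu1, hu2⟩ := near_above (nc_of y) 0 (8 * q) m hi
    rw [zero_add] at hu1
    exact ⟨u, by omega, by omega, by omega, hyO, hu1, hu2⟩
  · rw [← hcy, hc] at hi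
    obtain ⟨u, hu, hu', hu1, hu2⟩ := near_below (nc_of y) 0 (8 * q) m hi
    rw [zero_add] at hu1
    exact ⟨u, by omega, by omega, by omega, hyO, hu1, hu2⟩

theorem measure_VV (m q : ℕ) (hq : 1 ≤ q) : mu (VV m (8 * q)) ≤ 4 * mu (NN m q) := by
  have hne : (((8 * q : ℕ) : ℕ) : ℤ_[2]) ≠ 0 := by
    have : (8 * q : ℕ) ≠ 0 := by omega
    exact_mod_cast this
  obtain ⟨v, hv⟩ := exists_ex hne
  calc mu (VV m (8 * q))
      ≤ mu (⋃ i ∈ Finset.Icc 1 4, (sh ((i * 2 ^ v : ℕ) : ℤ)) ⁻¹' (NN m q)) :=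
        measure_mono (VV_subset m q v hv)
    _ ≤ ∑ i ∈ Finset.Icc 1 4, mu ((sh ((i * 2 ^ v : ℕ) : ℤ)) ⁻¹' (NN m q)) :=
        measure_biUnion_finset_le _ _
    _ = ∑ _i ∈ Finset.Icc 1 4, mu (NN m q) := by
        apply Finset.sum_congr rfl
        intro i _
        exact (mp_sh _).measure_preimage (isOpen_NN m q).measurableSet.nullMeasurableSet
    _ = 4 * mu (NN m q) := by
        rw [Finset.sum_const, Nat.card_Icc, nsmul_eq_mul]
        norm_num

theorem measure_OO_le (m : ℕ) (hm : 1 ≤ m) : mu OO ≤ 5 * mu (Bad m) := by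
  have hcov : OO ⊆ Bad m ∪ ⋃ q ∈ Finset.Icc 1 (2 * m + 2), VV m (8 * q) := by
    intro x hx
    obtain ⟨t, ht, hf, hc⟩ := exists_visit (nc_of x) 0 m
    rw [zero_add] at hf
    by_cases h8 : 8 ∣ t
    · right
      obtain ⟨q, rfl⟩ := h8
      simp only [Set.mem_iUnion]
      refine ⟨q, Finset.mem_Icc.mpr ⟨?_, by omega⟩, hx, hf, hc⟩
      by_contra h0
      have : q = 0 := by omega
      rw [this] at hc
      simp only [mul_zero, cc_zero] at hc
      omega
    · left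
      exact ⟨t, h8, hx, hf, hc⟩
  have hdisj : (↑(Finset.Icc 1 (2 * m + 2)) : Set ℕ).PairwiseDisjoint (fun q => NN m q) := by
    intro q _ q' _ hne
    rw [Function.onFun, Set.disjoint_left]
    rintro x ⟨s, h1, h2, h3, h4⟩ ⟨s', h1', h2', h3', h4'⟩
    have := visit_unique h4 h4'
    apply hne
    omega
  have hsub : (⋃ q ∈ Finset.Icc 1 (2 * m + 2), NN m q) ⊆ Bad m := by
    intro x hx
    simp only [Set.mem_iUnion] at hx
    obtain ⟨q, _, s, h1, h2, h3, h4⟩ := hx
    exact ⟨s, by omega, h4⟩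
  calc mu OO ≤ mu (Bad m ∪ ⋃ q ∈ Finset.Icc 1 (2 * m + 2), VV m (8 * q)) := measure_mono hcov
    _ ≤ mu (Bad m) + mu (⋃ q ∈ Finset.Icc 1 (2 * m + 2), VV m (8 * q)) := measure_union_le _ _
    _ ≤ mu (Bad m) + ∑ q ∈ Finset.Icc 1 (2 * m + 2), mu (VV m (8 * q)) := by
        gcongr
        exact measure_biUnion_finset_le _ _
    _ ≤ mu (Bad m) + ∑ q ∈ Finset.Icc 1 (2 * m + 2), 4 * mu (NN m q) := by
        gcongr with q hq
        exact measure_VV m q (Finset.mem_Icc.mp hq).1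
    _ = mu (Bad m) + 4 * mu (⋃ q ∈ Finset.Icc 1 (2 * m + 2), NN m q) := by
        rw [← Finset.mul_sum, measure_biUnion_finset hdisj
          (fun q _ => (isOpen_NN m q).measurableSet)]
    _ ≤ mu (Bad m) + 4 * mu (Bad m) := by
        gcongr
    _ = 5 * mu (Bad m) := by ring

theorem measure_OO_ne : mu OO ≠ 0 := by
  intro h0
  have hcov : (Set.univ : Set XP) ⊆ OO ∪ (sh 1) ⁻¹' OO := by
    intro x _
    by_cases hx : x ∈ OO
    · left; exact hx
    · right
      intro h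
      apply hx
      intro h'
      have h1 : (sh 1 x).1.1 = x.1.1 + ((1 : ℤ) : ℤ_[2]) := rfl
      rw [h1] at h
      have h2 := dvd_sub h h'
      have h3 : x.1.1 + ((1 : ℤ) : ℤ_[2]) - x.1.1 = ((1 : ℤ) : ℤ_[2]) := by ring
      rw [h3] at h2
      have := dvd_int (n := 1) h2
      omega
  have h1 : mu (Set.univ : Set XP) ≤ mu OO + mu ((sh 1) ⁻¹' OO) :=
    (measure_mono hcov).trans (measure_union_le _ _)
  rw [(mp_sh 1).measure_preimage isClopen_OO.isOpen.measurableSet.nullMeasurableSet, h0,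
    measure_univ] at h1
  simp at h1

/-- The clopen set. -/
def AA : Set XP := {x | x.1.2 0 = false}

theorem isClopen_AA : IsClopen AA := isClopen_coord 0

theorem OO_subset_AA : OO ⊆ AA := by
  intro x hx
  have he : Ex 0 (x.1.1 + ((0 : ℤ) : ℤ_[2])) := by
    refine ⟨by simp, ?_⟩
    have e : x.1.1 + ((0 : ℤ) : ℤ_[2]) = x.1.1 := by simp
    rw [e]
    exact hx
  have := x.2 0 0 he
  exact this

theorem measure_AA_ne : mu AA ≠ 0 := by
  intro h
  exact measure_OO_ne (measure_mono_null OO_subset_AA h)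

/-- The first return map. -/
noncomputable def SS (x : XP) : XP := if x.1.2 1 = false then sh 1 x else sh 2 x

theorem SS_spec (x : XP) (_hx : x ∈ AA) : ∃ r : ℕ, 0 < r ∧ SS x = (⇑TT)^[r] x ∧
    (⇑TT)^[r] x ∈ AA ∧ ∀ j : ℕ, 0 < j → j < r → (⇑TT)^[j] x ∉ AA := by
  by_cases h1 : x.1.2 1 = false
  · refine ⟨1, by norm_num, ?_, ?_, ?_⟩
    · rw [iterate_TT]
      unfold SS
      rw [if_pos h1]
      rfl
    · rw [iterate_TT]
      change x.1.2 (0 + ((1 : ℕ) : ℤ)) = false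
      simpa using h1
    · intro j h2 h3
      omega
  · refine ⟨2, by norm_num, ?_, ?_, ?_⟩
    · rw [iterate_TT]
      unfold SS
      rw [if_neg h1]
      rfl
    · rw [iterate_TT]
      change x.1.2 (0 + ((2 : ℕ) : ℤ)) = false
      rcases nc_of x 1 with h | h
      · exact absurd h h1
      · simpa using h
    · intro j h2 h3
      have : j = 1 := by omega
      rw [this, iterate_TT]
      change ¬ (x.1.2 (0 + ((1 : ℕ) : ℤ)) = false)
      simpa using h1

theorem iterate_SS (m : ℕ) (x : XP) (hx : x ∈ AA) :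
    ∃ t : ℕ, SS^[m] x = sh (t : ℤ) x ∧ x.1.2 t = false ∧ cc x.1.2 0 t = m := by
  induction m with
  | zero => exact ⟨0, by simp [sh_zero], hx, rfl⟩
  | succ m ih =>
    obtain ⟨t, h1, h2, h3⟩ := ih
    have hy : SS^[m] x ∈ AA := by
      rw [h1]
      change x.1.2 (0 + (t : ℤ)) = false
      rw [zero_add]
      exact h2
    obtain ⟨r, hr, h4, h5, h6⟩ := SS_spec _ hy
    refine ⟨t + r, ?_, ?_, ?_⟩
    · rw [Function.iterate_succ_apply', h4, h1, iterate_TT, sh_sh]
      congr 1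
      push_cast
      ring
    · rw [h1, iterate_TT] at h5
      have h7 : x.1.2 (0 + (r : ℤ) + (t : ℤ)) = false := h5
      rw [zero_add] at h7
      have : ((t + r : ℕ) : ℤ) = (r : ℤ) + (t : ℤ) := by push_cast; ring
      rw [this]
      exact h7
    · rw [cc_add, h3, zero_add]
      congr 1
      unfold cc
      have hmem : 0 ∈ Finset.range r := Finset.mem_range.mpr hr
      rw [← Finset.add_sum_erase _ _ hmem]
      have hz : ∑ j ∈ (Finset.range r).erase 0,
          (if x.1.2 ((t : ℤ) + (j : ℤ)) = false then 1 else 0) = 0 := by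
        apply Finset.sum_eq_zero
        intro j hj
        rw [Finset.mem_erase, Finset.mem_range] at hj
        have h8 := h6 j (by omega) hj.2
        rw [h1, iterate_TT] at h8
        have h9 : ¬ (x.1.2 (0 + (j : ℤ) + (t : ℤ)) = false) := h8
        rw [zero_add, add_comm] at h9
        rw [if_neg h9]
      rw [hz]
      simp [h2]

/-- The residue class pieces of the clopen set. -/
def BB (i : ℕ) : Set XP := AA ∩ {x | (2 : ℤ_[2]) ^ 3 ∣ x.1.1 - (i : ℤ_[2])}

theorem measurable_BB (i : ℕ) : MeasurableSet (BB i) := by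
  apply isClopen_AA.isOpen.measurableSet.inter
  apply IsOpen.measurableSet
  have : Continuous (fun x : XP => x.1.1 - (i : ℤ_[2])) := continuous_fst'.sub continuous_const
  exact ((isClopen_dvd 3).preimage this).isOpen

theorem Bad_subset (m : ℕ) :
    Bad m ⊆ ⋃ i ∈ Finset.range 8, ((AA ∩ SS^[m] ⁻¹' (BB i)) ∆ (BB i)) := by
  rintro x ⟨s, h8, hO, hf, hc⟩
  have hA : x ∈ AA := OO_subset_AA hO
  obtain ⟨t, h1, h2, h3⟩ := iterate_SS m x hA
  have hts : t = s := by
    apply cc_unique x.1.2 0 (t := t) (u := s) (m := m)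
    · rw [zero_add]; exact h2
    · rw [zero_add]; exact hf
    · exact h3
    · exact hc
  obtain ⟨i, hi, hd⟩ := exists_nat_congr x.1.1 3
  simp only [Set.mem_iUnion]
  refine ⟨i, Finset.mem_range.mpr (by simpa using hi), ?_⟩
  rw [Set.mem_symmDiff]
  right
  refine ⟨⟨hA, hd⟩, ?_⟩
  rintro ⟨_, h4⟩
  rw [Set.mem_preimage, h1, hts] at h4
  have h5 : (2 : ℤ_[2]) ^ 3 ∣ (x.1.1 + ((s : ℤ) : ℤ_[2])) - (i : ℤ_[2]) := h4.2
  have h6 := dvd_sub h5 hd
  have h7 : (x.1.1 + ((s : ℤ) : ℤ_[2])) - (i : ℤ_[2]) - (x.1.1 - (i : ℤ_[2])) =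
      ((s : ℤ) : ℤ_[2]) := by ring
  rw [h7] at h6
  have h9 := dvd_int h6
  apply h8
  have : (8 : ℤ) ∣ (s : ℤ) := by simpa using h9
  exact_mod_cast this

theorem not_rigid (n : ℕ → ℕ) (hn : ∀ k, 0 < n k)
    (h : ∀ B : Set XP, MeasurableSet B → B ⊆ AA →
      Tendsto (fun k => mu ((AA ∩ SS^[n k] ⁻¹' B) ∆ B)) atTop (𝓝 0)) : False := by
  have hsum : Tendsto (fun k => 5 * ∑ i ∈ Finset.range 8,
      mu ((AA ∩ SS^[n k] ⁻¹' (BB i)) ∆ (BB i))) atTop (𝓝 (5 * 0)) := by
    apply ENNReal.Tendsto.const_mul _ (Or.inr (by norm_num))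
    have : (0 : ENNReal) = ∑ i ∈ Finset.range 8, 0 := by simp
    rw [this]
    apply tendsto_finsetSum
    intro i _
    exact h (BB i) (measurable_BB i) Set.inter_subset_left
  rw [mul_zero] at hsum
  have hle : mu OO ≤ 0 := by
    apply ge_of_tendsto' hsum
    intro k
    calc mu OO ≤ 5 * mu (Bad (n k)) := measure_OO_le (n k) (hn k)
      _ ≤ 5 * ∑ i ∈ Finset.range 8, mu ((AA ∩ SS^[n k] ⁻¹' (BB i)) ∆ (BB i)) := by
          gcongr
          exact (measure_mono (Bad_subset (n k))).trans (measure_biUnion_finset_le _ _)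
  exact measure_OO_ne (le_antisymm hle (by positivity))

end Pool.Agent.H98R3.PD
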